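import Mathlib

/-!
# Project GE of helper284, job GE-EXPO: the truncated exponential
-/

set_option autoImplicit false

open Finset Polynomial

namespace Pool.Agent.Q166.GE

theorem iter_poly (P : ℂ[X]) (i : ℕ) :
    iteratedDeriv i (fun z : ℂ => P.eval z) = fun z => ((derivative^[i]) P).eval z := by
  induction i with
  | zero => simp
  | succ i ih =>
    rw [iteratedDeriv_succ, ih]
    funext z
    rw [Polynomial.deriv, Function.iterate_succ_apply']

theorem iter_poly_zero (P : ℂ[X]) (i : ℕ) :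
    iteratedDeriv i (fun z : ℂ => P.eval z) 0 = (i.factorial : ℂ) * P.coeff i := by
  rw [iter_poly]
  simp only
  rw [← coeff_zero_eq_eval_zero, coeff_iterate_derivative, zero_add, Nat.descFactorial_self,
    nsmul_eq_mul]

theorem expo_core (D : ℕ) (s : ℕ → ℂ) (ρ : ℝ) (hD : 1 ≤ D) (hρ : 1 < ρ)
    (hyp : (∑ m ∈ (Icc 1 D).filter (fun m => 2 * m < D), ‖s m‖ / m * (1 + ρ ^ m)) +
      Real.log (ρ / (ρ - 1)) < (D : ℝ) / 2 * Real.log ρ) :
    ∃ A : ℂ[X], A.coeff 0 = 1 ∧ (∀ n : ℕ, D ≤ 2 * n → A.coeff n = 0) ∧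
      (∀ z : ℂ, ‖z‖ ≤ 1 → A.eval z ≠ 0) ∧
      ∀ n : ℕ, 1 ≤ n → 2 * n < D → (n : ℂ) * A.coeff n = ∑ m ∈ Icc 1 n, s m * A.coeff (n - m) := by
  obtain ⟨S, hS⟩ : ∃ S : Finset ℕ, S = (Icc 1 D).filter (fun m => 2 * m < D) := ⟨_, rfl⟩
  rw [← hS] at hyp
  have hSm : ∀ m, m ∈ S ↔ 1 ≤ m ∧ 2 * m < D := by
    intro m
    rw [hS, Finset.mem_filter, Finset.mem_Icc]
    constructor
    · rintro ⟨⟨h1, -⟩, h2⟩
      exact ⟨h1, h2⟩
    · rintro ⟨h1, h2⟩
      exact ⟨⟨h1, by omega⟩, h2⟩
  obtain ⟨L, hL⟩ : ∃ L : ℂ[X], L = ∑ m ∈ S, C (s m / m) * X ^ m := ⟨_, rfl⟩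
  have hLc : ∀ m, L.coeff m = if m ∈ S then s m / m else 0 := by
    intro m
    rw [hL, finsetSum_coeff]
    simp only [coeff_C_mul_X_pow]
    rw [Finset.sum_ite_eq]
  have hL0 : L.eval 0 = 0 := by
    rw [← coeff_zero_eq_eval_zero, hLc, if_neg]
    rw [hSm]
    omega
  have hLn : ∀ z : ℂ, ∀ x : ℝ, ‖z‖ ≤ x → ‖L.eval z‖ ≤ ∑ m ∈ S, ‖s m‖ / m * x ^ m := by
    intro z x hz
    rw [hL, eval_finsetSum]
    refine (norm_sum_le _ _).trans (Finset.sum_le_sum fun m _ => ?_)
    rw [eval_mul, eval_C, eval_pow, eval_X, norm_mul, norm_div, norm_pow, Complex.norm_natCast]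
    gcongr
  -- the exponential
  set E : ℂ → ℂ := fun z => Complex.exp (L.eval z) with hE
  have hEd : Differentiable ℂ E := fun z => (L.differentiable z).cexp
  have hE' : deriv E = (fun z => (derivative L).eval z) * E := by
    funext z
    have h1 := ((L.hasDerivAt z).cexp).deriv
    rw [hE, h1, Pi.mul_apply]
    ring
  set e : ℕ → ℂ := fun n => iteratedDeriv n E 0 / n.factorial with he
  have he0 : e 0 = 1 := by
    rw [he]
    simp only [iteratedDeriv_zero, hE, hL0]
    simp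
  have hite : ∀ n, iteratedDeriv n E 0 = n.factorial * e n := by
    intro n
    have hf : (n.factorial : ℂ) ≠ 0 := by exact_mod_cast Nat.factorial_ne_zero n
    rw [he]
    simp only
    rw [mul_div_cancel₀ _ hf]
  have hrec : ∀ n, ((n + 1 : ℕ) : ℂ) * e (n + 1) =
      ∑ i ∈ range (n + 1), (if i + 1 ∈ S then s (i + 1) else 0) * e (n - i) := by
    intro n
    have h1 : iteratedDeriv (n + 1) E 0 = ∑ i ∈ range (n + 1), (n.choose i : ℂ) *
        iteratedDeriv i (fun z : ℂ => (derivative L).eval z) 0 * iteratedDeriv (n - i) E 0 := by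
      rw [iteratedDeriv_succ', hE', iteratedDeriv_mul]
      · exact (derivative L).differentiable.contDiff.contDiffAt
      · exact hEd.contDiff.contDiffAt
    rw [hite] at h1
    have h2 : ∀ i ∈ range (n + 1), (n.choose i : ℂ) *
        iteratedDeriv i (fun z : ℂ => (derivative L).eval z) 0 * iteratedDeriv (n - i) E 0 =
        n.factorial * ((if i + 1 ∈ S then s (i + 1) else 0) * e (n - i)) := by
      intro i hi
      have hin : i ≤ n := by
        have := Finset.mem_range.mp hi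
        omega
      rw [iter_poly_zero, hite, coeff_derivative, hLc]
      have h3 : (n.choose i : ℂ) * i.factorial * (n - i).factorial = n.factorial := by
        exact_mod_cast Nat.choose_mul_factorial_mul_factorial hin
      have h4 : (if i + 1 ∈ S then s (i + 1) / ((i + 1 : ℕ) : ℂ) else 0) * ((i : ℂ) + 1) =
          if i + 1 ∈ S then s (i + 1) else 0 := by
        have : ((i : ℂ) + 1) ≠ 0 := by exact_mod_cast Nat.succ_ne_zero i
        split_ifs
        · push_cast
          field_simp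
        · simp
      rw [h4, ← h3]
      ring
    rw [Finset.sum_congr rfl h2, ← Finset.mul_sum] at h1
    have h5 : ((n + 1).factorial : ℂ) = n.factorial * ((n + 1 : ℕ) : ℂ) := by
      rw [Nat.factorial_succ]
      push_cast
      ring
    rw [h5, mul_assoc] at h1
    have h6 : (n.factorial : ℂ) ≠ 0 := by exact_mod_cast Nat.factorial_ne_zero n
    exact mul_left_cancel₀ h6 h1
  -- Cauchy
  have hρ0 : 0 < ρ := by linarith
  obtain ⟨M, hM⟩ : ∃ M : ℝ, M = Real.exp (∑ m ∈ S, ‖s m‖ / m * ρ ^ m) := ⟨_, rfl⟩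
  have hM0 : 0 < M := by
    rw [hM]
    exact Real.exp_pos _
  have hen : ∀ n, ‖e n‖ ≤ M * (ρ⁻¹) ^ n := by
    intro n
    have h1 := Complex.norm_iteratedDeriv_le_of_forall_mem_sphere_norm_le (c := 0) (R := ρ) (C := M)
      (f := E) n hρ0 hEd.diffContOnCl (fun z hz => by
        rw [hE, Complex.norm_exp, hM]
        refine Real.exp_le_exp.mpr ((Complex.re_le_norm _).trans (hLn z ρ ?_))
        exact (mem_sphere_zero_iff_norm.mp hz).le)
    have hf : (0 : ℝ) < n.factorial := by exact_mod_cast Nat.factorial_pos n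
    rw [he]
    simp only
    rw [norm_div, Complex.norm_natCast, div_le_iff₀ hf]
    refine h1.trans (le_of_eq ?_)
    rw [inv_pow]
    field_simp
  -- the polynomial
  obtain ⟨n0, hn0⟩ : ∃ n0 : ℕ, n0 = (D + 1) / 2 := ⟨_, rfl⟩
  have hn0m : ∀ n, n < n0 ↔ 2 * n < D := by
    intro n
    omega
  obtain ⟨A, hA⟩ : ∃ A : ℂ[X], A = ∑ n ∈ range n0, C (e n) * X ^ n := ⟨_, rfl⟩
  have hAc : ∀ n, A.coeff n = if 2 * n < D then e n else 0 := by
    intro n
    rw [hA, finsetSum_coeff]
    simp only [coeff_C_mul_X_pow]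
    rw [Finset.sum_ite_eq]
    simp only [Finset.mem_range, hn0m]
  refine ⟨A, ?_, ?_, ?_, ?_⟩
  · rw [hAc, if_pos (by omega), he0]
  · intro n hn
    rw [hAc, if_neg (by omega)]
  · intro z hz hAz
    have hsum : HasSum (fun n => e n * z ^ n) (E z) := by
      have h1 := Complex.hasSum_taylorSeries_of_entire hEd 0 z
      have h2 : (fun n => e n * z ^ n) =
          fun n : ℕ => (n.factorial : ℂ)⁻¹ • (z - 0) ^ n • iteratedDeriv n E 0 := by
        funext n
        rw [he]
        simp only [sub_zero, smul_eq_mul]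
        ring
      rw [h2]
      exact h1
    have hsplit := hsum.summable.sum_add_tsum_nat_add n0
    rw [hsum.tsum_eq] at hsplit
    have hAe : ∑ n ∈ range n0, e n * z ^ n = 0 := by
      rw [← hAz, hA, eval_finsetSum]
      refine Finset.sum_congr rfl fun n _ => ?_
      rw [eval_mul, eval_C, eval_pow, eval_X]
    rw [hAe, zero_add] at hsplit
    have hgeo : HasSum (fun n : ℕ => M * (ρ⁻¹) ^ n0 * (ρ⁻¹) ^ n) (M * (ρ⁻¹) ^ n0 * (1 - ρ⁻¹)⁻¹) :=
      (hasSum_geometric_of_lt_one (by positivity) (inv_lt_one_of_one_lt₀ hρ)).mul_left _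
    have htail : ‖E z‖ ≤ M * (ρ⁻¹) ^ n0 * (1 - ρ⁻¹)⁻¹ := by
      rw [← hsplit]
      refine tsum_of_norm_bounded hgeo fun n => ?_
      rw [norm_mul, norm_pow]
      have h1 := hen (n + n0)
      have h2 : ‖z‖ ^ (n + n0) ≤ 1 := pow_le_one₀ (norm_nonneg _) hz
      calc ‖e (n + n0)‖ * ‖z‖ ^ (n + n0) ≤ ‖e (n + n0)‖ * 1 := by gcongr
        _ ≤ M * (ρ⁻¹) ^ (n + n0) := by
          rw [mul_one]
          exact h1
        _ = _ := by
          rw [pow_add]
          ring
    have hlow : Real.exp (-∑ m ∈ S, ‖s m‖ / m * 1 ^ m) ≤ ‖E z‖ := by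
      rw [hE, Complex.norm_exp]
      refine Real.exp_le_exp.mpr ?_
      have h1 := hLn z 1 hz
      have h2 := Complex.abs_re_le_norm (L.eval z)
      have h3 := neg_abs_le (L.eval z).re
      linarith
    have hrat : (1 - ρ⁻¹)⁻¹ = ρ / (ρ - 1) := by
      have : ρ - 1 ≠ 0 := by linarith
      field_simp
    have hpos1 : 0 < ρ / (ρ - 1) := div_pos hρ0 (by linarith)
    have hbig : M * (ρ⁻¹) ^ n0 * (1 - ρ⁻¹)⁻¹ = Real.exp ((∑ m ∈ S, ‖s m‖ / m * ρ ^ m) -
        n0 * Real.log ρ + Real.log (ρ / (ρ - 1))) := by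
      rw [Real.exp_add, Real.exp_sub, Real.exp_log hpos1, hrat, hM, Real.exp_nat_mul,
        Real.exp_log hρ0, inv_pow]
      ring
    rw [hbig] at htail
    have hcomp := Real.exp_le_exp.mp (hlow.trans htail)
    have hsumsplit : ∑ m ∈ S, ‖s m‖ / m * (1 + ρ ^ m) =
        (∑ m ∈ S, ‖s m‖ / m * 1 ^ m) + ∑ m ∈ S, ‖s m‖ / m * ρ ^ m := by
      rw [← Finset.sum_add_distrib]
      refine Finset.sum_congr rfl fun m _ => ?_
      rw [one_pow]
      ring
    rw [hsumsplit] at hyp
    have hlogρ : 0 < Real.log ρ := Real.log_pos hρ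
    have hn0D : (D : ℝ) / 2 ≤ n0 := by
      have : D ≤ 2 * n0 := by omega
      have h1 : (D : ℝ) ≤ 2 * n0 := by exact_mod_cast this
      linarith
    have h7 := mul_le_mul_of_nonneg_right hn0D hlogρ.le
    linarith
  · intro n hn1 hn2
    obtain ⟨k, rfl⟩ : ∃ k, n = k + 1 := ⟨n - 1, by omega⟩
    rw [hAc, if_pos hn2, hrec]
    refine Finset.sum_nbij' (fun i => i + 1) (fun m => m - 1) ?_ ?_ ?_ ?_ ?_
    · intro i hi
      simp only [Finset.mem_range, Finset.mem_Icc] at hi ⊢
      omega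
    · intro m hm
      simp only [Finset.mem_range, Finset.mem_Icc] at hm ⊢
      omega
    · intro i _
      simp
    · intro m hm
      simp only [Finset.mem_Icc] at hm
      omega
    · intro i hi
      simp only [Finset.mem_range] at hi
      rw [if_pos ((hSm _).mpr ⟨by omega, by omega⟩), hAc, if_pos (by omega),
        show k + 1 - (i + 1) = k - i by omega]

end Pool.Agent.Q166.GE
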