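import Pool.Agent.Q284.GE.Stm
import Pool.Agent.Q166.GE.ExpoCore

/-!
# Project GE of helper284, job GE-EXPO
-/

set_option autoImplicit false

namespace Pool.Agent.Q166.GE

theorem t_EXPO : Pool.Agent.Q284.GE.S_EXPO := fun D s ρ hD hρ hyp => expo_core D s ρ hD hρ hyp

end Pool.Agent.Q166.GE
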